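import Pool.Agent.Lib.MP_144d21_co.X2.H41.Struct

/-!
# MP_144d21_co, X2, part STRUCT (helper41): chains and the structure lemma
-/

set_option autoImplicit false

namespace Pool.Agent.Xu.X2.H41

open Finset Pool.Agent.Xu

variable {V : Type} [Fintype V] [DecidableEq V]

/-- a chain with hub `h`: a path `b 0, ..., b m` whose inner vertices `b i` have exactly the
neighbours `b (i - 1)`, `b (i + 1)`, `h` -/
structure Chain (G : SimpleGraph V) (S : Finset V) (h : V) (m : ℕ) (b : ℕ → V) : Prop where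
  m2 : 2 ≤ m
  hS : h ∈ S
  bS : ∀ i ≤ m, b i ∈ S
  inj : ∀ i ≤ m, ∀ j ≤ m, b i = b j → i = j
  bh : ∀ i ≤ m, b i ≠ h
  nbb : ∀ i, 0 < i → i < m → nb G S (b i) = {b (i - 1), b (i + 1), h}

/-- the inner vertices of a chain -/
def inner (b : ℕ → V) (m : ℕ) : Finset V := (Ioo 0 m).image b

theorem mem_inner {b : ℕ → V} {m : ℕ} {x : V} : x ∈ inner b m ↔ ∃ i, 0 < i ∧ i < m ∧ b i = x := by
  unfold inner
  rw [mem_image]
  constructor
  · rintro ⟨i, hi, h⟩
    rw [mem_Ioo] at hi
    exact ⟨i, hi.1, hi.2, h⟩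
  · rintro ⟨i, hi, hi', h⟩
    exact ⟨i, mem_Ioo.2 ⟨hi, hi'⟩, h⟩

theorem Chain.rev {G : SimpleGraph V} {S : Finset V} {h : V} {m : ℕ} {b : ℕ → V}
    (hc : Chain G S h m b) : Chain G S h m (fun i => b (m - i)) where
  m2 := hc.m2
  hS := hc.hS
  bS i _ := hc.bS _ (by omega)
  inj i hi j hj hij := by
    have := hc.inj (m - i) (by omega) (m - j) (by omega) hij
    omega
  bh i _ := hc.bh _ (by omega)
  nbb i hi hi' := by
    have h1 := hc.nbb (m - i) (by omega) (by omega)
    show nb G S (b (m - i)) = {b (m - (i - 1)), b (m - (i + 1)), h}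
    rw [h1]
    have e1 : m - i - 1 = m - (i + 1) := by omega
    have e2 : m - i + 1 = m - (i - 1) := by omega
    rw [e1, e2]
    ext y
    simp only [mem_insert, mem_singleton]
    tauto

theorem inner_rev {m : ℕ} {b : ℕ → V} : inner (fun i => b (m - i)) m = inner b m := by
  ext x
  rw [mem_inner, mem_inner]
  constructor
  · rintro ⟨i, hi, hi', h⟩
    exact ⟨m - i, by omega, by omega, h⟩
  · rintro ⟨i, hi, hi', h⟩
    exact ⟨m - i, by omega, by omega, by
      show b (m - (m - i)) = x
      rw [show m - (m - i) = i by omega]; exact h⟩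

/-- put a new vertex in front -/
def ext0 (u : V) (b : ℕ → V) : ℕ → V := fun i => Nat.casesOn i u b

theorem Chain.card_le {G : SimpleGraph V} {S : Finset V} {h : V} {m : ℕ} {b : ℕ → V}
    (hc : Chain G S h m b) : m + 1 ≤ S.card := by
  have h1 : (range (m + 1)).image b ⊆ S := by
    intro x hx
    obtain ⟨i, hi, rfl⟩ := mem_image.1 hx
    exact hc.bS i (by rw [mem_range] at hi; omega)
  have h2 := card_le_card h1
  rw [card_image_of_injOn, card_range] at h2
  · exact h2
  · intro i hi j hj hij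
    have hi' := mem_range.1 (mem_coe.1 hi)
    have hj' := mem_range.1 (mem_coe.1 hj)
    exact hc.inj i (by omega) j (by omega) hij

/-- (W) -/
theorem walk {G : SimpleGraph V} {S : Finset V} (h3 : C3 G S) {h w : V} :
    ∀ (n : ℕ) (v x z : V) (A B : Finset V), A.card = n → Cand G S v h w x z A B →
    (∃ A' ⊆ A, BC G S A') ∨ ∀ u ∈ A, EJ G S h u := by
  intro n
  induction n using Nat.strong_induction_on with
  | _ n IH =>
    intro v x z A B hA hc
    by_cases hej : EJ G S h x
    · by_cases hne : (A.erase x).Nonempty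
      · have hxw : x ≠ w := by
          rintro rfl; exact hc.sep.tp x (by simp) hc.xA
        have hT3 : ({x, h, w} : Finset V).card = 3 :=
          card_eq_three.2 ⟨x, h, w, hc.xh, hxw, hc.hw, rfl⟩
        obtain ⟨u, hu, hxu⟩ := h3.touch (hc.next hne) hT3.le (t := x) (by simp)
        have hvA : v ∉ A := hc.sep.tp v (by simp)
        have hhA : h ∉ A := hc.sep.tp h (by simp)
        have huA : u ∈ A := mem_of_mem_erase hu
        have huh : u ≠ h := by rintro rfl; exact hhA huA
        have huv : u ≠ v := by rintro rfl; exact hvA huA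
        have hnb : nb G S x = {h, u, v} := by
          symm
          apply eq_of_subset_of_card_le
          · intro y hy
            simp only [mem_insert, mem_singleton] at hy
            rw [mem_nb]
            rcases hy with rfl | rfl | rfl
            · exact ⟨hc.hS, hej.2⟩
            · exact ⟨(hc.sep.un y).2 (Or.inr (Or.inl huA)), hxu⟩
            · exact ⟨hc.vS, hc.adj.2.1.symm⟩
          · rw [hej.1, card_eq_three.2 ⟨h, u, v, huh.symm, hc.vh.symm, huv, rfl⟩]
        have hc' : Cand G S x h w u v (A.erase x) (insert v B) :=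
          ⟨hc.next hne, hc.xh, hxw, hc.hw, hnb, hu, mem_insert_self v B⟩
        have hlt : (A.erase x).card < n := by
          rw [← hA]; exact card_erase_lt_of_mem hc.xA
        rcases IH _ hlt _ _ _ _ _ rfl hc' with ⟨A', hA', hb⟩ | hall
        · exact Or.inl ⟨A', hA'.trans (erase_subset _ _), hb⟩
        · right
          intro y hy
          by_cases hyx : y = x
          · rw [hyx]; exact hej
          · exact hall y (mem_erase.2 ⟨hyx, hy⟩)
      · right
        intro y hy
        obtain ⟨h1, -⟩ := hc.single h3 hne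
        rw [h1, mem_singleton] at hy
        rw [hy]; exact hej
    · exact Or.inl ⟨A, Subset.refl A, v, h, w, x, z, B, hc, hej⟩

/-- one side of the hub cut of a longest chain contains a big candidate -/
theorem half {G : SimpleGraph V} {S : Finset V} (h3 : C3 G S) {v h w : V} {m i : ℕ} {b : ℕ → V}
    {A B : Finset V} (hch : Chain G S h m b)
    (hmax : ∀ (m' : ℕ) (b' : ℕ → V), Chain G S h m' b' →
      (∃ i', 0 < i' ∧ i' < m' ∧ b' i' = v) → m' ≤ m)
    (hi : 0 < i) (him : i < m) (hbi : b i = v) (hc : Cand G S v h w (b (i - 1)) (b (i + 1)) A B)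
    (h0 : b 0 ∈ A) (hm : b m ∈ B) : ∃ A' ⊆ A, BC G S A' := by
  rcases walk h3 _ _ _ _ _ _ rfl hc with h1 | h1
  · exact h1
  exfalso
  obtain ⟨hdeg, hadj⟩ := h1 _ h0
  have hm2 := hch.m2
  have h01 : G.Adj (b 0) (b 1) := by
    have h4 : b 0 ∈ nb G S (b 1) := by
      rw [hch.nbb 1 (by omega) (by omega)]; simp
    exact (mem_nb.1 h4).2.symm
  have hb1h : b 1 ≠ h := hch.bh 1 (by omega)
  -- the third neighbour
  obtain ⟨u, hu, huh, hu1⟩ : ∃ u ∈ nb G S (b 0), u ≠ h ∧ u ≠ b 1 := by
    by_contra hcon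
    push Not at hcon
    have hsub : nb G S (b 0) ⊆ {h, b 1} := by
      intro y hy
      simp only [mem_insert, mem_singleton]
      by_cases hyh : y = h
      · exact Or.inl hyh
      · exact Or.inr (hcon y hy hyh)
    have := (card_le_card hsub).trans (card_le_two (a := h) (b := b 1))
    omega
  rw [mem_nb] at hu
  have hnb0 : nb G S (b 0) = {u, b 1, h} := by
    symm
    apply eq_of_subset_of_card_le
    · intro y hy
      simp only [mem_insert, mem_singleton] at hy
      rw [mem_nb]
      rcases hy with rfl | rfl | rfl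
      · exact hu
      · exact ⟨hch.bS 1 (by omega), h01⟩
      · exact ⟨hch.hS, hadj⟩
    · rw [hdeg, card_eq_three.2 ⟨u, b 1, h, hu1, huh, hb1h, rfl⟩]
  have huj : ∀ j ≤ m, u ≠ b j := by
    intro j hj huj
    rcases Nat.eq_zero_or_pos j with rfl | hj0
    · rw [huj] at hu
      exact hu.2.ne rfl
    rcases Nat.lt_or_ge j m with hjm | hjm
    · have h4 : b 0 ∈ nb G S (b j) := mem_nb.2 ⟨hch.bS 0 (by omega), by rw [← huj]; exact hu.2.symm⟩
      rw [hch.nbb j hj0 hjm] at h4
      simp only [mem_insert, mem_singleton] at h4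
      rcases h4 with h4 | h4 | h4
      · have := hch.inj 0 (by omega) (j - 1) (by omega) h4
        have hj1 : j = 1 := by omega
        subst hj1
        exact hu1 huj
      · have := hch.inj 0 (by omega) (j + 1) (by omega) h4
        omega
      · exact hch.bh 0 (by omega) h4
    · have hjm' : j = m := by omega
      subst hjm'
      rw [huj] at hu
      exact hc.sep.ne _ h0 _ hm hu.2
  have hch' : Chain G S h (m + 1) (ext0 u b) := by
    refine ⟨by omega, hch.hS, fun j hj => ?_, fun j hj k hk hjk => ?_, fun j hj => ?_,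
      fun j hj hjm => ?_⟩
    · rcases j with _ | j
      · exact hu.1
      · exact hch.bS j (by omega)
    · rcases j with _ | j
      · rcases k with _ | k
        · rfl
        · exact absurd hjk (huj k (by omega))
      · rcases k with _ | k
        · exact absurd hjk.symm (huj j (by omega))
        · rw [hch.inj j (by omega) k (by omega) hjk]
    · rcases j with _ | j
      · exact huh
      · exact hch.bh j (by omega)
    · rcases j with _ | j
      · omega
      rcases j with _ | j
      · exact hnb0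
      · exact hch.nbb (j + 1) (by omega) (by omega)
  have := hmax (m + 1) _ hch' ⟨i + 1, by omega, by omega, hbi⟩
  omega

theorem add_adj {G : SimpleGraph V} {v w a b : V} :
    (add G v w).Adj a b ↔ G.Adj a b ∨ (a ≠ b ∧ ((a = v ∧ b = w) ∨ (a = w ∧ b = v))) := Iff.rfl

/-- a separation of the rest which does not split the boundary of the chain lifts -/
theorem lift {G G' : SimpleGraph V} {S T P Q : Finset V} {h : V} {m : ℕ} {b : ℕ → V}
    (hch : Chain G S h m b) (hG : ∀ x y, G.Adj x y → G'.Adj x y)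
    (hs : Sepn G' (S \ inner b m) T P Q) (h1 : h ∉ Q) (h2 : b 0 ∉ Q) (h3 : b m ∉ Q) :
    Sepn G S T (P ∪ inner b m) Q := by
  have hin : ∀ x, x ∈ inner b m → x ∈ S := by
    intro x hx
    obtain ⟨i, hi, hi', rfl⟩ := mem_inner.1 hx
    exact hch.bS i (by omega)
  have hR : ∀ x, (x ∈ T ∨ x ∈ P ∨ x ∈ Q) → x ∉ inner b m := by
    intro x hx
    have := (hs.un x).2 hx
    rw [mem_sdiff] at this
    exact this.2
  refine ⟨fun x => ?_, fun x hx => ?_, hs.tq, fun x hx => ?_, ?_, hs.q0, fun x hx y hy ha => ?_⟩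
  · have e := hs.un x
    rw [mem_sdiff] at e
    rw [mem_union]
    have := hin x
    tauto
  · rw [mem_union]
    rintro (h4 | h4)
    · exact hs.tp x hx h4
    · exact hR x (Or.inl hx) h4
  · rcases mem_union.1 hx with h4 | h4
    · exact hs.pq x h4
    · intro h5
      exact hR x (Or.inr (Or.inr h5)) h4
  · exact hs.p0.mono subset_union_left
  · rcases mem_union.1 hx with h4 | h4
    · exact hs.ne x h4 y hy (hG _ _ ha)
    · obtain ⟨i, hi, hi', rfl⟩ := mem_inner.1 h4
      have hyS : y ∈ S := by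
        have := (hs.un y).2 (Or.inr (Or.inr hy))
        rw [mem_sdiff] at this
        exact this.1
      have hy2 : y ∈ nb G S (b i) := mem_nb.2 ⟨hyS, ha⟩
      rw [hch.nbb i hi hi'] at hy2
      simp only [mem_insert, mem_singleton] at hy2
      have hyin := hR y (Or.inr (Or.inr hy))
      rcases hy2 with rfl | rfl | rfl
      · rcases Nat.eq_zero_or_pos (i - 1) with h5 | h5
        · rw [h5] at hy; exact h2 hy
        · exact hyin (mem_inner.2 ⟨i - 1, h5, by omega, rfl⟩)
      · rcases Nat.lt_or_ge (i + 1) m with h5 | h5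
        · exact hyin (mem_inner.2 ⟨i + 1, by omega, h5, rfl⟩)
        · rw [show i + 1 = m by omega] at hy; exact h3 hy
      · exact h1 hy

/-- a separation of the rest which splits the ends of the chain -/
theorem split {G G' : SimpleGraph V} {S T P Q : Finset V} (h3 : C3 G S) {v h : V} {m i : ℕ}
    {b : ℕ → V} (hch : Chain G S h m b) (hG : ∀ x y, G.Adj x y → G'.Adj x y)
    (hs : Sepn G' (S \ inner b m) T P Q) (hT : T.card < 3) (hhT : h ∈ T) (h0 : b 0 ∈ P)
    (hm : b m ∈ Q) (hi : 0 < i) (him : i < m) (hbi : b i = v) :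
    ∃ (w : V) (A B : Finset V), Cand G S v h w (b (i - 1)) (b (i + 1)) A B ∧ b 0 ∈ A ∧
      b m ∈ B := by
  have hin : ∀ x, x ∈ inner b m → x ∈ S := by
    intro x hx
    obtain ⟨i, hi, hi', rfl⟩ := mem_inner.1 hx
    exact hch.bS i (by omega)
  have hR : ∀ x, (x ∈ T ∨ x ∈ P ∨ x ∈ Q) → x ∉ inner b m := by
    intro x hx
    have := (hs.un x).2 hx
    rw [mem_sdiff] at this
    exact this.2
  have hRS : ∀ x, (x ∈ T ∨ x ∈ P ∨ x ∈ Q) → x ∈ S := by
    intro x hx
    have := (hs.un x).2 hx
    rw [mem_sdiff] at this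
    exact this.1
  set A : Finset V := P ∪ (Ioo 0 i).image b with hA
  set B : Finset V := Q ∪ (Ioo i m).image b with hB
  have memA : ∀ x, x ∈ A ↔ x ∈ P ∨ ∃ j, 0 < j ∧ j < i ∧ b j = x := by
    intro x
    rw [hA, mem_union, mem_image]
    simp only [mem_Ioo, and_assoc]
  have memB : ∀ x, x ∈ B ↔ x ∈ Q ∨ ∃ j, i < j ∧ j < m ∧ b j = x := by
    intro x
    rw [hB, mem_union, mem_image]
    simp only [mem_Ioo, and_assoc]
  have hvin : v ∈ inner b m := mem_inner.2 ⟨i, hi, him, hbi⟩
  have hsep : Sepn G S (insert v T) A B := by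
    refine ⟨fun x => ?_, fun x hx => ?_, fun x hx => ?_, fun x hx => ?_, ?_, ?_,
      fun x hx y hy ha => ?_⟩
    · rw [mem_insert, memA, memB]
      constructor
      · intro hxS
        by_cases hxi : x ∈ inner b m
        · obtain ⟨j, hj, hj', rfl⟩ := mem_inner.1 hxi
          rcases lt_trichotomy j i with h4 | h4 | h4
          · exact Or.inr (Or.inl (Or.inr ⟨j, hj, h4, rfl⟩))
          · rw [h4]; exact Or.inl (Or.inl hbi)
          · exact Or.inr (Or.inr (Or.inr ⟨j, h4, hj', rfl⟩))
        · rcases (hs.un x).1 (mem_sdiff.2 ⟨hxS, hxi⟩) with h4 | h4 | h4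
          · exact Or.inl (Or.inr h4)
          · exact Or.inr (Or.inl (Or.inl h4))
          · exact Or.inr (Or.inr (Or.inl h4))
      · rintro ((rfl | h4) | (h4 | ⟨j, hj, hj', rfl⟩) | (h4 | ⟨j, hj, hj', rfl⟩))
        · exact hin _ hvin
        · exact hRS x (Or.inl h4)
        · exact hRS x (Or.inr (Or.inl h4))
        · exact hch.bS j (by omega)
        · exact hRS x (Or.inr (Or.inr h4))
        · exact hch.bS j (by omega)
    · rw [memA]
      rcases mem_insert.1 hx with rfl | hx
      · rintro (h4 | ⟨j, hj, hj', h4⟩)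
        · exact hR x (Or.inr (Or.inl h4)) hvin
        · have := hch.inj j (by omega) i (by omega) (by rw [h4, hbi])
          omega
      · rintro (h4 | ⟨j, hj, hj', h4⟩)
        · exact hs.tp x hx h4
        · exact hR x (Or.inl hx) (mem_inner.2 ⟨j, hj, by omega, h4⟩)
    · rw [memB]
      rcases mem_insert.1 hx with rfl | hx
      · rintro (h4 | ⟨j, hj, hj', h4⟩)
        · exact hR x (Or.inr (Or.inr h4)) hvin
        · have := hch.inj j (by omega) i (by omega) (by rw [h4, hbi])
          omega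
      · rintro (h4 | ⟨j, hj, hj', h4⟩)
        · exact hs.tq x hx h4
        · exact hR x (Or.inl hx) (mem_inner.2 ⟨j, by omega, hj', h4⟩)
    · rw [memB]
      rcases (memA x).1 hx with hx | ⟨k, hk, hk', rfl⟩
      · rintro (h4 | ⟨j, hj, hj', h4⟩)
        · exact hs.pq x hx h4
        · exact hR x (Or.inr (Or.inl hx)) (mem_inner.2 ⟨j, by omega, hj', h4⟩)
      · rintro (h4 | ⟨j, hj, hj', h4⟩)
        · exact hR _ (Or.inr (Or.inr h4)) (mem_inner.2 ⟨k, hk, by omega, rfl⟩)
        · have := hch.inj j (by omega) k (by omega) h4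
          omega
    · exact ⟨b 0, (memA _).2 (Or.inl h0)⟩
    · exact ⟨b m, (memB _).2 (Or.inl hm)⟩
    · rcases (memA x).1 hx with hx | ⟨j, hj, hj', rfl⟩
      · rcases (memB y).1 hy with hy | ⟨k, hk, hk', rfl⟩
        · exact hs.ne x hx y hy (hG _ _ ha)
        · have hx2 : x ∈ nb G S (b k) := mem_nb.2 ⟨hRS x (Or.inr (Or.inl hx)), ha.symm⟩
          rw [hch.nbb k (by omega) hk'] at hx2
          simp only [mem_insert, mem_singleton] at hx2
          have hxin := hR x (Or.inr (Or.inl hx))
          rcases hx2 with rfl | rfl | rfl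
          · exact hxin (mem_inner.2 ⟨k - 1, by omega, by omega, rfl⟩)
          · rcases Nat.lt_or_ge (k + 1) m with h5 | h5
            · exact hxin (mem_inner.2 ⟨k + 1, by omega, h5, rfl⟩)
            · rw [show k + 1 = m by omega] at hx
              exact hs.pq _ hx hm
          · exact hs.tp _ hhT hx
      · have hyS : y ∈ S := by
          rcases (memB y).1 hy with hy | ⟨k, hk, hk', rfl⟩
          · exact hRS y (Or.inr (Or.inr hy))
          · exact hch.bS k (by omega)
        have hy2 : y ∈ nb G S (b j) := mem_nb.2 ⟨hyS, ha⟩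
        rw [hch.nbb j hj (by omega)] at hy2
        simp only [mem_insert, mem_singleton] at hy2
        rcases (memB y).1 hy with hy | ⟨k, hk, hk', rfl⟩
        · have hyin := hR y (Or.inr (Or.inr hy))
          rcases hy2 with rfl | rfl | rfl
          · rcases Nat.eq_zero_or_pos (j - 1) with h5 | h5
            · rw [h5] at hy; exact hs.pq _ h0 hy
            · exact hyin (mem_inner.2 ⟨j - 1, h5, by omega, rfl⟩)
          · exact hyin (mem_inner.2 ⟨j + 1, by omega, by omega, rfl⟩)
          · exact hs.tq _ hhT hy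
        · rcases hy2 with h4 | h4 | h4
          · have := hch.inj k (by omega) (j - 1) (by omega) h4
            omega
          · have := hch.inj k (by omega) (j + 1) (by omega) h4
            omega
          · exact hch.bh k (by omega) h4
  have hvT : v ∉ T := fun h4 => hR v (Or.inl h4) hvin
  have hT2 : T.card = 2 := by
    have h5 := h3.2 _ _ _ hsep
    rw [card_insert_of_notMem hvT] at h5
    omega
  obtain ⟨w, hw, hTw⟩ : ∃ w, h ≠ w ∧ T = {h, w} := by
    obtain ⟨p, q, hpq, hTpq⟩ := card_eq_two.1 hT2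
    rw [hTpq] at hhT
    simp only [mem_insert, mem_singleton] at hhT
    rcases hhT with rfl | rfl
    · exact ⟨q, hpq, hTpq⟩
    · exact ⟨p, hpq.symm, by rw [hTpq, pair_comm]⟩
  refine ⟨w, A, B, ⟨by rw [← hTw]; exact hsep, ?_, ?_, hw, ?_, ?_, ?_⟩,
    (memA _).2 (Or.inl h0), (memB _).2 (Or.inl hm)⟩
  · rintro rfl; exact hvT hhT
  · rintro rfl; exact hvT (by rw [hTw]; simp)
  · rw [← hbi, hch.nbb i hi him]
    ext y
    simp only [mem_insert, mem_singleton]
    tauto
  · rw [memA]
    rcases Nat.eq_zero_or_pos (i - 1) with h5 | h5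
    · rw [h5]; exact Or.inl h0
    · exact Or.inr ⟨i - 1, h5, by omega, rfl⟩
  · rw [memB]
    rcases Nat.lt_or_ge (i + 1) m with h5 | h5
    · exact Or.inr ⟨i + 1, by omega, h5, rfl⟩
    · rw [show i + 1 = m by omega]; exact Or.inl hm

/-- a good chain: at least three rim edges, and the rest with the two spokes is 3-connected -/
def GoodChain (G : SimpleGraph V) (S : Finset V) (h : V) (m : ℕ) (b : ℕ → V) : Prop :=
  Chain G S h m b ∧ 3 ≤ m ∧ C3 (add (add G h (b 0)) h (b m)) (S \ inner b m)

/-- (+) -/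
theorem plus {G : SimpleGraph V} {S : Finset V} (h3 : C3 G S) {v h w0 y0 z0 : V}
    {A0 B0 : Finset V} (hc : Cand G S v h w0 y0 z0 A0 B0)
    (hno : ∀ (m : ℕ) (b : ℕ → V), ¬ GoodChain G S h m b) :
    ∃ (w x z : V) (A B : Finset V), Cand G S v h w x z A B ∧ (∃ A' ⊆ A, BC G S A') ∧
      ∃ A' ⊆ B, BC G S A' := by
  classical
  set P : ℕ → Prop := fun m => ∃ b : ℕ → V, Chain G S h m b ∧ ∃ i, 0 < i ∧ i < m ∧ b i = v with hP
  have hvS := hc.vS
  have hy0S : y0 ∈ S := (hc.sep.un y0).2 (Or.inr (Or.inl hc.xA))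
  have hz0S : z0 ∈ S := (hc.sep.un z0).2 (Or.inr (Or.inr hc.zB))
  have hyv : y0 ≠ v := hc.adj.2.1.ne.symm
  have hzv : z0 ≠ v := hc.adj.2.2.ne.symm
  have hbase : P 2 := by
    refine ⟨fun i => if i = 0 then y0 else if i = 1 then v else z0, ⟨le_rfl, hc.hS, ?_, ?_, ?_, ?_⟩,
      1, by omega, by omega, rfl⟩
    · intro i hi
      interval_cases i <;> simp [hy0S, hvS, hz0S]
    · intro i hi j hj
      interval_cases i <;> interval_cases j <;> simp [hyv, hyv.symm, hzv, hzv.symm, hc.xz,
        hc.xz.symm]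
    · intro i hi
      interval_cases i <;> simp [hc.xh, hc.vh, hc.symm.xh]
    · intro i hi hi'
      have h1 : i = 1 := by omega
      subst h1
      show nb G S v = _
      rw [hc.nbv]
      ext y
      simp only [mem_insert, mem_singleton]
      norm_num
      tauto
  have hbdd : BddAbove {m | P m} := by
    refine ⟨S.card, ?_⟩
    rintro m ⟨b, hb, -⟩
    have := hb.card_le
    omega
  have hmem : sSup {m | P m} ∈ {m | P m} := Nat.sSup_mem ⟨2, hbase⟩ hbdd
  obtain ⟨b, hch, i, hi, him, hbi⟩ := hmem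
  set m := sSup {m | P m} with hm
  have hmax : ∀ (m' : ℕ) (b' : ℕ → V), Chain G S h m' b' →
      (∃ i', 0 < i' ∧ i' < m' ∧ b' i' = v) → m' ≤ m := by
    intro m' b' hb' hi'
    exact le_csSup hbdd ⟨b', hb', hi'⟩
  have hm2 := hch.m2
  set G' := add (add G h (b 0)) h (b m) with hG'
  have hGG : ∀ x y, G.Adj x y → G'.Adj x y := by
    intro x y hxy
    rw [hG', add_adj, add_adj]
    exact Or.inl (Or.inl hxy)
  have hb0R : b 0 ∈ S \ inner b m := by
    rw [mem_sdiff, mem_inner]
    refine ⟨hch.bS 0 (by omega), ?_⟩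
    rintro ⟨j, hj, hj', h4⟩
    have := hch.inj j (by omega) 0 (by omega) h4
    omega
  have hbmR : b m ∈ S \ inner b m := by
    rw [mem_sdiff, mem_inner]
    refine ⟨hch.bS m le_rfl, ?_⟩
    rintro ⟨j, hj, hj', h4⟩
    have := hch.inj j (by omega) m (by omega) h4
    omega
  have hhR : h ∈ S \ inner b m := by
    rw [mem_sdiff, mem_inner]
    refine ⟨hch.hS, ?_⟩
    rintro ⟨j, hj, hj', h4⟩
    exact hch.bh j (by omega) h4
  have h0m : b 0 ≠ b m := by
    intro h4
    have := hch.inj 0 (by omega) m le_rfl h4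
    omega
  have hadj0 : G'.Adj h (b 0) := by
    rw [hG', add_adj, add_adj]
    exact Or.inl (Or.inr ⟨(hch.bh 0 (by omega)).symm, Or.inl ⟨rfl, rfl⟩⟩)
  have hadjm : G'.Adj h (b m) := by
    rw [hG', add_adj]
    exact Or.inr ⟨(hch.bh m le_rfl).symm, Or.inl ⟨rfl, rfl⟩⟩
  have hnC : ¬ C3 G' (S \ inner b m) := by
    rcases Nat.lt_or_ge m 3 with hlt | hge
    · have hm2' : m = 2 := by omega
      have hi1 : i = 1 := by omega
      intro hC
      have hin : inner b m = {v} := by
        ext x
        rw [mem_inner, mem_singleton]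
        constructor
        · rintro ⟨j, hj, hj', rfl⟩
          rw [← hbi]; congr 1; omega
        · rintro rfl
          exact ⟨i, hi, him, hbi⟩
      have hsep : Sepn G' (S \ inner b m) {h, w0} A0 B0 := by
        refine ⟨fun x => ?_, fun x hx => hc.sep.tp x ?_, fun x hx => hc.sep.tq x ?_, hc.sep.pq,
          hc.sep.p0, hc.sep.q0, fun x hx y hy ha => ?_⟩
        · rw [hin, mem_sdiff, hc.sep.un x]
          simp only [mem_insert, mem_singleton]
          have e1 : x = v → x ∉ A0 := by
            rintro rfl; exact hc.sep.tp x (by simp)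
          have e2 : x = v → x ∉ B0 := by
            rintro rfl; exact hc.sep.tq x (by simp)
          have e3 : x = v → x ≠ h := by
            rintro rfl; exact hc.vh
          have e4 : x = v → x ≠ w0 := by
            rintro rfl; exact hc.vw
          tauto
        · simp only [mem_insert, mem_singleton] at hx ⊢; tauto
        · simp only [mem_insert, mem_singleton] at hx ⊢; tauto
        · have hhA : h ∉ A0 := hc.sep.tp h (by simp)
          have hhB : h ∉ B0 := hc.sep.tq h (by simp)
          rw [hG', add_adj, add_adj] at ha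
          rcases ha with (ha | ⟨-, ⟨rfl, -⟩ | ⟨-, rfl⟩⟩) | ⟨-, ⟨rfl, -⟩ | ⟨-, rfl⟩⟩
          · exact hc.sep.ne x hx y hy ha
          · exact hhA hx
          · exact hhB hy
          · exact hhA hx
          · exact hhB hy
      have := hC.2 _ _ _ hsep
      rw [card_pair hc.hw] at this
      omega
    · intro hC
      exact hno m b ⟨hch, hge, hC⟩
  have hcard : 3 ≤ (S \ inner b m).card := by
    have hsub : ({h, b 0, b m} : Finset V) ⊆ S \ inner b m := by
      intro x hx
      simp only [mem_insert, mem_singleton] at hx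
      rcases hx with rfl | rfl | rfl
      · exact hhR
      · exact hb0R
      · exact hbmR
    have := card_le_card hsub
    rwa [card_eq_three.2 ⟨h, b 0, b m, (hch.bh 0 (by omega)).symm, (hch.bh m le_rfl).symm, h0m,
      rfl⟩] at this
  obtain ⟨T, P', Q', hs, hTlt⟩ : ∃ T P' Q', Sepn G' (S \ inner b m) T P' Q' ∧ T.card < 3 := by
    by_contra hcon
    push Not at hcon
    exact hnC ⟨hcard, fun T P' Q' hs => hcon T P' Q' hs⟩
  -- the boundary is not contained in one closed side
  have key1 : ∀ P' Q', Sepn G' (S \ inner b m) T P' Q' → h ∈ Q' ∨ b 0 ∈ Q' ∨ b m ∈ Q' := by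
    intro P' Q' hs
    by_contra hcon
    push Not at hcon
    have := h3.2 _ _ _ (lift hch hGG hs hcon.1 hcon.2.1 hcon.2.2)
    omega
  have hhT : h ∈ T := by
    rcases (hs.un h).1 hhR with h4 | h4 | h4
    · exact h4
    · exfalso
      rcases key1 _ _ hs with h5 | h5 | h5
      · exact hs.pq _ h4 h5
      · exact hs.ne _ h4 _ h5 hadj0
      · exact hs.ne _ h4 _ h5 hadjm
    · exfalso
      rcases key1 _ _ hs.symm with h5 | h5 | h5
      · exact hs.pq _ h5 h4
      · exact hs.ne _ h5 _ h4 hadj0.symm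
      · exact hs.ne _ h5 _ h4 hadjm.symm
  have hsplit : (b 0 ∈ P' ∧ b m ∈ Q') ∨ (b 0 ∈ Q' ∧ b m ∈ P') := by
    have k1 := key1 _ _ hs
    have k2 := key1 _ _ hs.symm
    have k3 := hs.tp _ hhT
    have k4 := hs.tq _ hhT
    have k5 := hs.pq (b 0)
    have k6 := hs.pq (b m)
    tauto
  obtain ⟨w, A, B, hcand, hA0, hBm⟩ : ∃ (w : V) (A B : Finset V),
      Cand G S v h w (b (i - 1)) (b (i + 1)) A B ∧ b 0 ∈ A ∧ b m ∈ B := by
    rcases hsplit with ⟨h4, h5⟩ | ⟨h4, h5⟩
    · exact split h3 hch hGG hs hTlt hhT h4 h5 hi him hbi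
    · exact split h3 hch hGG hs.symm hTlt hhT h4 h5 hi him hbi
  refine ⟨w, _, _, A, B, hcand, half h3 hch hmax hi him hbi hcand hA0 hBm, ?_⟩
  have hcr := hch.rev
  refine half h3 (i := m - i) hcr hmax (by omega) (by omega) ?_ ?_ ?_ ?_ (w := w) (B := A)
  · show b (m - (m - i)) = v
    rw [show m - (m - i) = i by omega]; exact hbi
  · show Cand G S v h w (b (m - (m - i - 1))) (b (m - (m - i + 1))) B A
    rw [show m - (m - i - 1) = i + 1 by omega, show m - (m - i + 1) = i - 1 by omega]
    exact hcand.symm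
  · show b (m - 0) ∈ B
    rw [Nat.sub_zero]; exact hBm
  · show b (m - m) ∈ A
    rw [Nat.sub_self]; exact hA0

/-- THE STRUCTURE LEMMA -/
theorem structure_lemma {G : SimpleGraph V} {S : Finset V} (h3 : C3 G S)
    (hex : ∃ T P Q : Finset V, Sepn G S T P Q ∧ T.card = 3)
    (hfr : ∀ T P Q : Finset V, Sepn G S T P Q → T.card = 3 → ∃ v ∈ P, (nb G S v).card = 3)
    (hhub : ∀ v ∈ S, (nb G S v).card = 3 → ∃ (h w x z : V) (A B : Finset V),
      Cand G S v h w x z A B) :
    ∃ (h : V) (m : ℕ) (b : ℕ → V), GoodChain G S h m b := by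
  by_contra hcon
  push Not at hcon
  have hbig : ∀ v ∈ S, (nb G S v).card = 3 → ∃ (h w x z : V) (A B : Finset V),
      Cand G S v h w x z A B ∧ (∃ A' ⊆ A, BC G S A') ∧ ∃ A' ⊆ B, BC G S A' := by
    intro v hv hdeg
    obtain ⟨h, w0, x0, z0, A0, B0, hc⟩ := hhub v hv hdeg
    obtain ⟨w, x, z, A, B, h1⟩ := plus h3 hc (fun m b => hcon h m b)
    exact ⟨h, w, x, z, A, B, h1⟩
  obtain ⟨T, P, Q, hs, hT⟩ := hex
  obtain ⟨v, hv, hdeg⟩ := hfr T P Q hs hT
  obtain ⟨h, w, x, z, A, B, -, ⟨A', -, hb⟩, -⟩ :=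
    hbig v ((hs.un v).2 (Or.inr (Or.inl hv))) hdeg
  exact no_big h3 hfr hbig _ A' rfl hb

end Pool.Agent.Xu.X2.H41
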