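import Pool.Agent.Lib.MP_144d21_co.XU.Base

/-!
# MP_144d21_co, X2, part STRUCT (helper41): separations, the structure lemma

If every side of every 3-cut of a 3-connected graph contains a vertex of degree 3 and every vertex
of degree 3 has a hub, then there is a good chain.
-/

set_option autoImplicit false

namespace Pool.Agent.Xu.X2.H41

open Finset Pool.Agent.Xu

variable {V : Type} [Fintype V] [DecidableEq V]

/-- a separation of `G[S]` -/
structure Sepn (G : SimpleGraph V) (S T P Q : Finset V) : Prop where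
  un : ∀ x, x ∈ S ↔ x ∈ T ∨ x ∈ P ∨ x ∈ Q
  tp : ∀ x ∈ T, x ∉ P
  tq : ∀ x ∈ T, x ∉ Q
  pq : ∀ x ∈ P, x ∉ Q
  p0 : P.Nonempty
  q0 : Q.Nonempty
  ne : ∀ x ∈ P, ∀ y ∈ Q, ¬ G.Adj x y

theorem Sepn.symm {G : SimpleGraph V} {S T P Q : Finset V} (h : Sepn G S T P Q) :
    Sepn G S T Q P where
  un x := by rw [h.un x]; tauto
  tp := h.tq
  tq := h.tp
  pq x hx hx' := h.pq x hx' hx
  p0 := h.q0
  q0 := h.p0
  ne x hx y hy ha := h.ne y hy x hx ha.symm

/-- `G[S]` is 3-connected (`K_3` counts) -/
def C3 (G : SimpleGraph V) (S : Finset V) : Prop :=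
  3 ≤ S.card ∧ ∀ T P Q : Finset V, Sepn G S T P Q → 3 ≤ T.card

/-- every vertex of a 3-cut has a neighbour in both sides -/
theorem C3.touch {G : SimpleGraph V} {S T P Q : Finset V} (h3 : C3 G S) (h : Sepn G S T P Q)
    (hT : T.card ≤ 3) {t : V} (ht : t ∈ T) : ∃ x ∈ P, G.Adj t x := by
  by_contra hcon
  push Not at hcon
  have h1 : Sepn G S (T.erase t) P (insert t Q) := by
    refine ⟨fun x => ?_, fun x hx => h.tp x (mem_of_mem_erase hx), fun x hx => ?_,
      fun x hx => ?_, h.p0, ⟨t, mem_insert_self t Q⟩, fun x hx y hy ha => ?_⟩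
    · rw [h.un x, mem_erase, mem_insert]
      by_cases hxt : x = t
      · subst hxt; tauto
      · tauto
    · rw [mem_insert]
      rintro (rfl | h2)
      · exact (mem_erase.1 hx).1 rfl
      · exact h.tq x (mem_of_mem_erase hx) h2
    · rw [mem_insert]
      rintro (rfl | h2)
      · exact h.tp x ht hx
      · exact h.pq x hx h2
    · rcases mem_insert.1 hy with rfl | h2
      · exact hcon x hx ha.symm
      · exact h.ne x hx y h2 ha
  have h2 := h3.2 _ _ _ h1
  rw [card_erase_of_mem ht] at h2
  omega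

/-- uncrossing -/
theorem corner {G : SimpleGraph V} {S T A B T2 A2 B2 : Finset V} (h1 : Sepn G S T A B)
    (h2 : Sepn G S T2 A2 B2) {x0 : V} (hx1 : x0 ∈ B) (hx2 : x0 ∈ A2) :
    Sepn G S (S.filter fun x => (x ∈ B ∨ x ∈ T) ∧ (x ∈ A2 ∨ x ∈ T2) ∧ ¬ (x ∈ B ∧ x ∈ A2))
      (S.filter fun x => x ∈ B ∧ x ∈ A2) (S.filter fun x => x ∈ A ∨ x ∈ B2) := by
  refine ⟨fun x => ?_, fun x hx => ?_, fun x hx => ?_, fun x hx => ?_, ⟨x0, ?_⟩, ?_, ?_⟩
  · simp only [mem_filter]
    have e1 := h1.un x
    have e2 := h2.un x
    tauto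
  · simp only [mem_filter] at hx ⊢
    tauto
  · simp only [mem_filter] at hx ⊢
    rintro ⟨-, h3 | h3⟩
    · rcases hx.2.1 with h4 | h4
      · exact h1.pq x h3 h4
      · exact h1.tp x h4 h3
    · rcases hx.2.2.1 with h4 | h4
      · exact h2.pq x h4 h3
      · exact h2.tq x h4 h3
  · simp only [mem_filter] at hx ⊢
    rintro ⟨-, h3 | h3⟩
    · exact h1.pq x h3 hx.2.1
    · exact h2.pq x hx.2.2 h3
  · simp only [mem_filter]
    exact ⟨(h1.un x0).2 (Or.inr (Or.inr hx1)), hx1, hx2⟩
  · obtain ⟨a, ha⟩ := h1.p0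
    exact ⟨a, by simp only [mem_filter]; exact ⟨(h1.un a).2 (Or.inr (Or.inl ha)), Or.inl ha⟩⟩
  · intro x hx y hy ha
    simp only [mem_filter] at hx hy
    rcases hy.2 with h3 | h3
    · exact h1.ne y h3 x hx.2.1 ha.symm
    · exact h2.ne x hx.2.2 y h3 ha

/-- a vertex of degree 3 adjacent to `h` -/
def EJ (G : SimpleGraph V) (S : Finset V) (h x : V) : Prop :=
  (nb G S x).card = 3 ∧ G.Adj x h

/-- a vertex `v` of degree 3 with hub `h` -/
structure Cand (G : SimpleGraph V) (S : Finset V) (v h w x z : V) (A B : Finset V) : Prop where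
  sep : Sepn G S {v, h, w} A B
  vh : v ≠ h
  vw : v ≠ w
  hw : h ≠ w
  nbv : nb G S v = {h, x, z}
  xA : x ∈ A
  zB : z ∈ B

theorem Cand.symm {G : SimpleGraph V} {S : Finset V} {v h w x z : V} {A B : Finset V}
    (hc : Cand G S v h w x z A B) : Cand G S v h w z x B A where
  sep := hc.sep.symm
  vh := hc.vh
  vw := hc.vw
  hw := hc.hw
  nbv := by rw [hc.nbv]; ext y; simp only [mem_insert, mem_singleton]; tauto
  xA := hc.zB
  zB := hc.xA

theorem Cand.card3 {G : SimpleGraph V} {S : Finset V} {v h w x z : V} {A B : Finset V}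
    (hc : Cand G S v h w x z A B) : ({v, h, w} : Finset V).card = 3 :=
  card_eq_three.2 ⟨v, h, w, hc.vh, hc.vw, hc.hw, rfl⟩

theorem Cand.xh {G : SimpleGraph V} {S : Finset V} {v h w x z : V} {A B : Finset V}
    (hc : Cand G S v h w x z A B) : x ≠ h := by
  rintro rfl
  exact hc.sep.tp x (by simp) hc.xA

theorem Cand.xz {G : SimpleGraph V} {S : Finset V} {v h w x z : V} {A B : Finset V}
    (hc : Cand G S v h w x z A B) : x ≠ z := by
  rintro rfl
  exact hc.sep.pq x hc.xA hc.zB

theorem Cand.deg {G : SimpleGraph V} {S : Finset V} {v h w x z : V} {A B : Finset V}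
    (hc : Cand G S v h w x z A B) : (nb G S v).card = 3 := by
  rw [hc.nbv]
  exact card_eq_three.2 ⟨h, x, z, hc.xh.symm, hc.symm.xh.symm, hc.xz, rfl⟩

theorem Cand.vS {G : SimpleGraph V} {S : Finset V} {v h w x z : V} {A B : Finset V}
    (hc : Cand G S v h w x z A B) : v ∈ S := (hc.sep.un v).2 (Or.inl (by simp))

theorem Cand.hS {G : SimpleGraph V} {S : Finset V} {v h w x z : V} {A B : Finset V}
    (hc : Cand G S v h w x z A B) : h ∈ S := (hc.sep.un h).2 (Or.inl (by simp))

theorem Cand.wS {G : SimpleGraph V} {S : Finset V} {v h w x z : V} {A B : Finset V}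
    (hc : Cand G S v h w x z A B) : w ∈ S := (hc.sep.un w).2 (Or.inl (by simp))

theorem Cand.adj {G : SimpleGraph V} {S : Finset V} {v h w x z : V} {A B : Finset V}
    (hc : Cand G S v h w x z A B) : G.Adj v h ∧ G.Adj v x ∧ G.Adj v z := by
  refine ⟨?_, ?_, ?_⟩
  · exact (mem_nb.1 (show h ∈ nb G S v by rw [hc.nbv]; simp)).2
  · exact (mem_nb.1 (show x ∈ nb G S v by rw [hc.nbv]; simp)).2
  · exact (mem_nb.1 (show z ∈ nb G S v by rw [hc.nbv]; simp)).2

/-- the separation behind `x` -/
theorem Cand.next {G : SimpleGraph V} {S : Finset V} {v h w x z : V} {A B : Finset V}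
    (hc : Cand G S v h w x z A B) (hA : (A.erase x).Nonempty) :
    Sepn G S {x, h, w} (A.erase x) (insert v B) := by
  have hxv : x ≠ v := by
    rintro rfl; exact hc.sep.tp x (by simp) hc.xA
  have hxw : x ≠ w := by
    rintro rfl; exact hc.sep.tp x (by simp) hc.xA
  have hvA : v ∉ A := hc.sep.tp v (by simp)
  have hhA : h ∉ A := hc.sep.tp h (by simp)
  have hwA : w ∉ A := hc.sep.tp w (by simp)
  have hvB : v ∉ B := hc.sep.tq v (by simp)
  have hhB : h ∉ B := hc.sep.tq h (by simp)
  have hwB : w ∉ B := hc.sep.tq w (by simp)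
  have hxB : x ∉ B := hc.sep.pq x hc.xA
  refine ⟨fun y => ?_, fun y hy => ?_, fun y hy => ?_, fun y hy => ?_, hA, ⟨v, by simp⟩, ?_⟩
  · rw [hc.sep.un y]
    simp only [mem_insert, mem_singleton, mem_erase]
    by_cases hyx : y = x
    · subst hyx; have := hc.xA; tauto
    · tauto
  · simp only [mem_insert, mem_singleton] at hy
    rcases hy with rfl | rfl | rfl <;> simp [hhA, hwA]
  · simp only [mem_insert, mem_singleton] at hy ⊢
    rcases hy with rfl | rfl | rfl
    · simp [hxv, hxB]
    · simp [hc.vh.symm, hhB]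
    · simp [hc.vw.symm, hwB]
  · simp only [mem_insert, mem_erase] at hy ⊢
    rintro (rfl | h1)
    · exact hvA hy.2
    · exact hc.sep.pq y hy.2 h1
  · intro y hy u hu ha
    rw [mem_erase] at hy
    rcases mem_insert.1 hu with rfl | h1
    · have hyS : y ∈ S := (hc.sep.un y).2 (Or.inr (Or.inl hy.2))
      have h2 : y ∈ nb G S u := mem_nb.2 ⟨hyS, ha.symm⟩
      rw [hc.nbv] at h2
      simp only [mem_insert, mem_singleton] at h2
      rcases h2 with rfl | rfl | rfl
      · exact hhA hy.2
      · exact hy.1 rfl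
      · exact hc.sep.pq y hy.2 hc.zB
    · exact hc.sep.ne y hy.2 u h1 ha

/-- if `A = {x}` then `x` is an E-joint -/
theorem Cand.single {G : SimpleGraph V} {S : Finset V} {v h w x z : V} {A B : Finset V}
    (h3 : C3 G S) (hc : Cand G S v h w x z A B) (hA : ¬ (A.erase x).Nonempty) :
    A = {x} ∧ EJ G S h x := by
  have h1 : A = {x} := by
    rw [not_nonempty_iff_eq_empty, erase_eq_empty_iff] at hA
    rcases hA with h2 | h2
    · exact absurd hc.xA (by rw [h2]; simp)
    · exact h2
  refine ⟨h1, ?_⟩
  have htouch : ∀ t ∈ ({v, h, w} : Finset V), G.Adj x t := by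
    intro t ht
    obtain ⟨y, hy, ha⟩ := h3.touch hc.sep hc.card3.le ht
    rw [h1, mem_singleton] at hy
    rw [← hy]; exact ha.symm
  have h4 : nb G S x = {v, h, w} := by
    ext y
    rw [mem_nb]
    constructor
    · rintro ⟨hyS, ha⟩
      rcases (hc.sep.un y).1 hyS with h5 | h5 | h5
      · exact h5
      · rw [h1, mem_singleton] at h5
        subst h5
        exact absurd rfl ha.ne
      · exact absurd ha (hc.sep.ne x hc.xA y h5)
    · intro hy
      exact ⟨(hc.sep.un y).2 (Or.inl hy), htouch y hy⟩
  refine ⟨by rw [h4]; exact hc.card3, htouch h (by simp)⟩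

/-- `A` is the side of a big candidate -/
def BC (G : SimpleGraph V) (S A : Finset V) : Prop :=
  ∃ (v h w x z : V) (B : Finset V), Cand G S v h w x z A B ∧ ¬ EJ G S h x

/-- if one side of the second separation swallows `B` then the other one is too small -/
theorem small_of_subset {G : SimpleGraph V} {S T A B T2 A2 B2 : Finset V} (h3 : C3 G S)
    (h1 : Sepn G S T A B) (hT : T.card ≤ 3) (h2 : Sepn G S T2 A2 B2) (hB : ∀ x ∈ B, x ∈ B2)
    {v' : V} (hv1 : v' ∈ A) (hv2 : v' ∈ T2) : A2.card < A.card := by
  apply card_lt_card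
  rw [ssubset_iff_of_subset]
  · exact ⟨v', hv1, h2.tp v' hv2⟩
  · intro y hy
    rcases (h1.un y).1 ((h2.un y).2 (Or.inr (Or.inl hy))) with h4 | h4 | h4
    · obtain ⟨b, hb, ha⟩ := h3.touch h1.symm hT h4
      exact absurd ha (h2.ne y hy b (hB b hb))
    · exact h4
    · exact absurd (hB y h4) (h2.pq y hy)

/-- case II.1: at most one vertex of `T` in `A2` -/
theorem small_of_one {G : SimpleGraph V} {S T A B T2 A2 B2 : Finset V} (h3 : C3 G S)
    (h1 : Sepn G S T A B) (h2 : Sepn G S T2 A2 B2) {v' h' w' : V} (hT2 : T2 = {v', h', w'})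
    (hvA : v' ∈ A) (hhA : h' ∈ A) (hwB : w' ∈ B) (hvh : v' ≠ h')
    (hone : (T.filter fun x => x ∈ A2).card ≤ 1) : A2.card < A.card := by
  have hBA : ∀ x ∈ B, x ∉ A2 := by
    intro x hx hx2
    have hc := h3.2 _ _ _ (corner h1 h2 hx hx2)
    have hsub : (S.filter fun x => (x ∈ B ∨ x ∈ T) ∧ (x ∈ A2 ∨ x ∈ T2) ∧ ¬ (x ∈ B ∧ x ∈ A2)) ⊆
        insert w' (T.filter fun x => x ∈ A2) := by
      intro y hy
      simp only [mem_filter, mem_insert] at hy ⊢
      obtain ⟨-, h4, h5, h6⟩ := hy
      rw [hT2] at h5
      simp only [mem_insert, mem_singleton] at h5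
      rcases h5 with h5 | rfl | rfl | rfl
      · rcases h4 with h4 | h4
        · exact absurd ⟨h4, h5⟩ h6
        · exact Or.inr ⟨h4, h5⟩
      · rcases h4 with h4 | h4
        · exact absurd h4 (h1.pq _ hvA)
        · exact absurd hvA (h1.tp _ h4)
      · rcases h4 with h4 | h4
        · exact absurd h4 (h1.pq _ hhA)
        · exact absurd hhA (h1.tp _ h4)
      · exact Or.inl rfl
    have := card_le_card hsub
    have := card_insert_le w' (T.filter fun x => x ∈ A2)
    omega
  have hsub : A2 ⊆ ((A.erase v').erase h') ∪ (T.filter fun x => x ∈ A2) := by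
    intro y hy
    rw [mem_union, mem_erase, mem_erase, mem_filter]
    have hyv : y ≠ v' := by
      rintro rfl; exact h2.tp y (by rw [hT2]; simp) hy
    have hyh : y ≠ h' := by
      rintro rfl; exact h2.tp y (by rw [hT2]; simp) hy
    rcases (h1.un y).1 ((h2.un y).2 (Or.inr (Or.inl hy))) with h4 | h4 | h4
    · exact Or.inr ⟨h4, hy⟩
    · exact Or.inl ⟨hyh, hyv, h4⟩
    · exact absurd hy (hBA y h4)
  have h5 := (card_le_card hsub).trans (card_union_le _ _)
  rw [card_erase_of_mem (mem_erase.2 ⟨hvh.symm, hhA⟩), card_erase_of_mem hvA] at h5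
  have h6 : 2 ≤ A.card := by
    have : ({v', h'} : Finset V) ⊆ A := by
      intro y hy
      simp only [mem_insert, mem_singleton] at hy
      rcases hy with rfl | rfl <;> assumption
    have h7 := card_le_card this
    rwa [card_pair hvh] at h7
  omega

/-- case II.2: `T` meets `A2` -/
theorem meets {G : SimpleGraph V} {S T A B T2 A2 B2 : Finset V} (h3 : C3 G S)
    (h1 : Sepn G S T A B) (h2 : Sepn G S T2 A2 B2) {v' h' w' : V} (hT2 : T2 = {v', h', w'})
    (hvA : v' ∈ A) (hhT : h' ∈ T) (hwB : w' ∈ B) : ∃ t ∈ T, t ∈ A2 := by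
  by_contra hcon
  push Not at hcon
  obtain ⟨y, hy⟩ := h2.p0
  rcases (h1.un y).1 ((h2.un y).2 (Or.inr (Or.inl hy))) with h4 | h4 | h4
  · exact hcon y h4 hy
  · have hc := h3.2 _ _ _ (corner h1.symm h2 h4 hy)
    have hsub : (S.filter fun x => (x ∈ A ∨ x ∈ T) ∧ (x ∈ A2 ∨ x ∈ T2) ∧ ¬ (x ∈ A ∧ x ∈ A2)) ⊆
        {v', h'} := by
      intro u hu
      simp only [mem_filter, mem_insert, mem_singleton] at hu ⊢
      obtain ⟨-, h5, h6, h7⟩ := hu
      rw [hT2] at h6
      simp only [mem_insert, mem_singleton] at h6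
      rcases h6 with h6 | rfl | rfl | rfl
      · rcases h5 with h5 | h5
        · exact absurd ⟨h5, h6⟩ h7
        · exact absurd h6 (hcon u h5)
      · exact Or.inl rfl
      · exact Or.inr rfl
      · rcases h5 with h5 | h5
        · exact absurd hwB (h1.pq _ h5)
        · exact absurd hwB (h1.tq _ h5)
    have h8 := (card_le_card hsub).trans (card_le_two (a := v') (b := h'))
    omega
  · have hc := h3.2 _ _ _ (corner h1 h2 h4 hy)
    have hsub : (S.filter fun x => (x ∈ B ∨ x ∈ T) ∧ (x ∈ A2 ∨ x ∈ T2) ∧ ¬ (x ∈ B ∧ x ∈ A2)) ⊆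
        {w', h'} := by
      intro u hu
      simp only [mem_filter, mem_insert, mem_singleton] at hu ⊢
      obtain ⟨-, h5, h6, h7⟩ := hu
      rw [hT2] at h6
      simp only [mem_insert, mem_singleton] at h6
      rcases h6 with h6 | rfl | rfl | rfl
      · rcases h5 with h5 | h5
        · exact absurd ⟨h5, h6⟩ h7
        · exact absurd h6 (hcon u h5)
      · rcases h5 with h5 | h5
        · exact absurd h5 (h1.pq _ hvA)
        · exact absurd hvA (h1.tp _ h5)
      · exact Or.inr rfl
      · exact Or.inl rfl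
    have h8 := (card_le_card hsub).trans (card_le_two (a := w') (b := h'))
    omega

/-- case II.2, `h' = h`, `v ∈ A2`: a smaller big candidate -/
theorem smaller {G : SimpleGraph V} {S A B A2 B2 : Finset V} {v h w x z v' w' : V} (h3 : C3 G S)
    (hc : Cand G S v h w x z A B) (h2 : Sepn G S {v', h, w'} A2 B2) (hvA : v' ∈ A) (hxv : v' ≠ x)
    (hwB : w' ∈ B) (hv2 : v ∈ A2) (hw2 : w ∈ B2) :
    ∃ B' : Finset V, Cand G S v h v' x z (S.filter fun y => y ∈ A ∧ y ∈ A2) B' := by
  have h1 := hc.sep
  have hx2 : x ∈ A2 := by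
    rcases (h2.un x).1 ((h1.un x).2 (Or.inr (Or.inl hc.xA))) with h4 | h4 | h4
    · simp only [mem_insert, mem_singleton] at h4
      rcases h4 with rfl | rfl | rfl
      · exact absurd rfl hxv
      · exact absurd rfl hc.xh
      · exact absurd hwB (h1.pq _ hc.xA)
    · exact h4
    · exact absurd hc.adj.2.1 (h2.ne v hv2 x h4)
  have hs := corner h1.symm h2 hc.xA hx2
  have hTe : (S.filter fun y => (y ∈ A ∨ y ∈ ({v, h, w} : Finset V)) ∧
      (y ∈ A2 ∨ y ∈ ({v', h, w'} : Finset V)) ∧ ¬ (y ∈ A ∧ y ∈ A2)) = {v, h, v'} := by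
    ext y
    simp only [mem_filter, mem_insert, mem_singleton]
    constructor
    · rintro ⟨-, h5, h6, h7⟩
      rcases h5 with h5 | h5 | h5 | h5
      · rcases h6 with h6 | h6 | h6 | h6
        · exact absurd ⟨h5, h6⟩ h7
        · exact Or.inr (Or.inr h6)
        · exact Or.inr (Or.inl h6)
        · subst h6
          exact absurd hwB (h1.pq _ h5)
      · exact Or.inl h5
      · exact Or.inr (Or.inl h5)
      · subst h5
        rcases h6 with h6 | h6 | h6 | h6
        · exact absurd hw2 (h2.pq _ h6)
        · subst h6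
          exact absurd hvA (h1.tp _ (by simp))
        · exact absurd h6.symm hc.hw
        · subst h6
          exact absurd hwB (h1.tq _ (by simp))
    · rintro (rfl | rfl | rfl)
      · exact ⟨hc.vS, Or.inr (Or.inl rfl), Or.inl hv2, fun h => h1.tp _ (by simp) h.1⟩
      · exact ⟨hc.hS, Or.inr (Or.inr (Or.inl rfl)), Or.inr (Or.inr (Or.inl rfl)),
          fun h => h1.tp _ (by simp) h.1⟩
      · exact ⟨(h1.un _).2 (Or.inr (Or.inl hvA)), Or.inl hvA, Or.inr (Or.inl rfl),
          fun h => h2.tp _ (by simp) h.2⟩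
  rw [hTe] at hs
  refine ⟨_, hs, hc.vh, ?_, ?_, hc.nbv, ?_, ?_⟩
  · rintro rfl; exact h1.tp _ (by simp) hvA
  · rintro rfl; exact h1.tp _ (by simp) hvA
  · simp only [mem_filter]
    exact ⟨(h1.un _).2 (Or.inr (Or.inl hc.xA)), hc.xA, hx2⟩
  · simp only [mem_filter]
    exact ⟨(h1.un _).2 (Or.inr (Or.inr hc.zB)), Or.inl hc.zB⟩

/-- THE UNCROSSING LEMMA: there is no big candidate if every fragment contains a vertex of degree 3
and every vertex of degree 3 has a hub with big candidates on both sides -/
theorem no_big {G : SimpleGraph V} {S : Finset V} (h3 : C3 G S)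
    (hfr : ∀ T P Q : Finset V, Sepn G S T P Q → T.card = 3 → ∃ v ∈ P, (nb G S v).card = 3)
    (hbig : ∀ v ∈ S, (nb G S v).card = 3 → ∃ (h w x z : V) (A B : Finset V),
      Cand G S v h w x z A B ∧ (∃ A' ⊆ A, BC G S A') ∧ ∃ A' ⊆ B, BC G S A') :
    ∀ (n : ℕ) (A : Finset V), A.card = n → ¬ BC G S A := by
  intro n
  induction n using Nat.strong_induction_on with
  | _ n IH =>
    rintro A hAn ⟨v, h, w, x, z, B, hc, hej⟩
    have hne : (A.erase x).Nonempty := by
      by_contra hcon
      exact hej (hc.single h3 hcon).2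
    have hT3 : ({x, h, w} : Finset V).card = 3 := by
      refine card_eq_three.2 ⟨x, h, w, hc.xh, ?_, hc.hw, rfl⟩
      rintro rfl; exact hc.sep.tp x (by simp) hc.xA
    obtain ⟨v', hv', hdeg⟩ := hfr _ _ _ (hc.next hne) hT3
    rw [mem_erase] at hv'
    obtain ⟨hv'x, hv'A⟩ := hv'
    have h1 := hc.sep
    have hv'S : v' ∈ S := (h1.un v').2 (Or.inr (Or.inl hv'A))
    obtain ⟨h', w', y', z', A2, B2, hc2, ⟨A', hA', hbA⟩, ⟨B', hB', hbB⟩⟩ := hbig v' hv'S hdeg
    have h2 := hc2.sep
    have hA2 : A.card ≤ A2.card := by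
      by_contra hlt
      push Not at hlt
      exact IH A'.card (lt_of_le_of_lt (card_le_card hA') (by omega)) A' rfl hbA
    have hB2 : A.card ≤ B2.card := by
      by_contra hlt
      push Not at hlt
      exact IH B'.card (lt_of_le_of_lt (card_le_card hB') (by omega)) B' rfl hbB
    have hnadj : ¬ G.Adj v v' := by
      intro ha
      have : v' ∈ nb G S v := mem_nb.2 ⟨hv'S, ha⟩
      rw [hc.nbv] at this
      simp only [mem_insert, mem_singleton] at this
      rcases this with rfl | rfl | rfl
      · exact h1.tp _ (by simp) hv'A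
      · exact hv'x rfl
      · exact h1.pq _ hv'A hc.zB
    have hh' : h' ∈ A ∨ h' = h ∨ h' = w := by
      rcases (h1.un h').1 hc2.hS with h4 | h4 | h4
      · simp only [mem_insert, mem_singleton] at h4
        rcases h4 with rfl | h4 | h4
        · exact absurd hc2.adj.1.symm hnadj
        · exact Or.inr (Or.inl h4)
        · exact Or.inr (Or.inr h4)
      · exact Or.inl h4
      · exact absurd hc2.adj.1 (h1.ne v' hv'A h' h4)
    have hv'2 : v' ∈ ({v', h', w'} : Finset V) := by simp
    by_cases hwB : w' ∈ B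
    · -- case II
      rcases hh' with hhA | hhT
      · -- II.1
        have hsplit : (({v, h, w} : Finset V).filter fun x => x ∈ A2).card +
            (({v, h, w} : Finset V).filter fun x => x ∈ B2).card ≤ 3 := by
          rw [← hc.card3, ← card_union_of_disjoint]
          · apply card_le_card
            intro y hy
            rw [mem_union, mem_filter, mem_filter] at hy
            tauto
          · rw [disjoint_left]
            intro y hy hy'
            rw [mem_filter] at hy hy'
            exact h2.pq y hy.2 hy'.2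
        rcases (by omega : (({v, h, w} : Finset V).filter fun x => x ∈ A2).card ≤ 1 ∨
            (({v, h, w} : Finset V).filter fun x => x ∈ B2).card ≤ 1) with h5 | h5
        · exact absurd (small_of_one h3 h1 h2 rfl hv'A hhA hwB hc2.vh h5) (by omega)
        · exact absurd (small_of_one h3 h1 h2.symm rfl hv'A hhA hwB hc2.vh h5) (by omega)
      · -- II.2
        have hhT' : h' ∈ ({v, h, w} : Finset V) := by
          rcases hhT with rfl | rfl <;> simp
        obtain ⟨s, hs, hs2⟩ := meets h3 h1 h2 rfl hv'A hhT' hwB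
        obtain ⟨s', hs', hs2'⟩ := meets h3 h1 h2.symm rfl hv'A hhT' hwB
        have hsh : s ≠ h' := by
          rintro rfl; exact h2.tp _ (by simp) hs2
        have hsh' : s' ≠ h' := by
          rintro rfl; exact h2.tq _ (by simp) hs2'
        have hss : s ≠ s' := by
          rintro rfl; exact h2.pq _ hs2 hs2'
        simp only [mem_insert, mem_singleton] at hs hs'
        rcases hhT with rfl | rfl
        · -- same hub
          rcases hs with rfl | rfl | rfl
          · rcases hs' with rfl | rfl | rfl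
            · exact hss rfl
            · exact hsh' rfl
            · obtain ⟨B', hB'⟩ := smaller h3 hc h2 hv'A hv'x hwB hs2 hs2'
              refine IH _ ?_ _ rfl ⟨_, _, _, _, _, _, hB', hej⟩
              rw [← hAn]
              apply card_lt_card
              rw [ssubset_iff_of_subset]
              · refine ⟨v', hv'A, fun h => ?_⟩
                rw [mem_filter] at h
                exact h2.tp _ hv'2 h.2.2
              · intro y hy
                exact ((mem_filter.1 hy).2).1
          · exact hsh rfl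
          · rcases hs' with rfl | rfl | rfl
            · obtain ⟨B', hB'⟩ := smaller h3 hc h2.symm hv'A hv'x hwB hs2' hs2
              refine IH _ ?_ _ rfl ⟨_, _, _, _, _, _, hB', hej⟩
              rw [← hAn]
              apply card_lt_card
              rw [ssubset_iff_of_subset]
              · refine ⟨v', hv'A, fun h => ?_⟩
                rw [mem_filter] at h
                exact h2.tq _ hv'2 h.2.2
              · intro y hy
                exact ((mem_filter.1 hy).2).1
            · exact hsh' rfl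
            · exact hss rfl
        · rcases hs with rfl | rfl | rfl
          · rcases hs' with rfl | rfl | rfl
            · exact hss rfl
            · exact h2.ne _ hs2 _ hs2' hc.adj.1
            · exact hsh' rfl
          · rcases hs' with rfl | rfl | rfl
            · exact h2.ne _ hs2 _ hs2' hc.adj.1.symm
            · exact hss rfl
            · exact hsh' rfl
          · exact hsh rfl
    · -- case I
      have hBcov : ∀ y ∈ B, y ∈ A2 ∨ y ∈ B2 := by
        intro y hy
        rcases (h2.un y).1 ((h1.un y).2 (Or.inr (Or.inr hy))) with h4 | h4 | h4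
        · simp only [mem_insert, mem_singleton] at h4
          rcases h4 with rfl | rfl | rfl
          · exact absurd hy (h1.pq _ hv'A)
          · rcases hh' with h5 | h5 | h5
            · exact absurd hy (h1.pq _ h5)
            · exact absurd hy (h1.tq _ (by rw [h5]; simp))
            · exact absurd hy (h1.tq _ (by rw [h5]; simp))
          · exact absurd hy hwB
        · exact Or.inl h4
        · exact Or.inr h4
      by_cases hb1 : ∃ b ∈ B, b ∈ A2
      · by_cases hb2 : ∃ b ∈ B, b ∈ B2
        · obtain ⟨b1, hb1, hb1'⟩ := hb1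
          obtain ⟨b2, hb2, hb2'⟩ := hb2
          have k1 := h3.2 _ _ _ (corner h1 h2 hb1 hb1')
          have k2 := h3.2 _ _ _ (corner h1 h2.symm hb2 hb2')
          have hTB : ∀ y ∈ B, y ∉ ({v', h', w'} : Finset V) := by
            intro y hy hy2
            rcases hBcov y hy with h5 | h5
            · exact h2.tp _ hy2 h5
            · exact h2.tq _ hy2 h5
          have l1 : ∀ t ∈ ({v, h, w} : Finset V), t ∈ A2 ∨ t ∈ ({v', h', w'} : Finset V) := by
            have hsub : (S.filter fun x => (x ∈ B ∨ x ∈ ({v, h, w} : Finset V)) ∧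
                (x ∈ A2 ∨ x ∈ ({v', h', w'} : Finset V)) ∧ ¬ (x ∈ B ∧ x ∈ A2)) ⊆
                ({v, h, w} : Finset V).filter fun x => x ∈ A2 ∨ x ∈ ({v', h', w'} : Finset V) := by
              intro y hy
              rw [mem_filter] at hy ⊢
              obtain ⟨-, h5, h6, h7⟩ := hy
              rcases h5 with h5 | h5
              · rcases h6 with h6 | h6
                · exact absurd ⟨h5, h6⟩ h7
                · exact absurd h6 (hTB y h5)
              · exact ⟨h5, h6⟩
            have h8 := k1.trans (card_le_card hsub)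
            rw [← hc.card3] at h8
            have h9 := eq_of_subset_of_card_le (filter_subset _ _) h8
            intro t ht
            rw [← h9, mem_filter] at ht
            exact ht.2
          have l2 : ∀ t ∈ ({v, h, w} : Finset V), t ∈ B2 ∨ t ∈ ({v', h', w'} : Finset V) := by
            have hsub : (S.filter fun x => (x ∈ B ∨ x ∈ ({v, h, w} : Finset V)) ∧
                (x ∈ B2 ∨ x ∈ ({v', h', w'} : Finset V)) ∧ ¬ (x ∈ B ∧ x ∈ B2)) ⊆
                ({v, h, w} : Finset V).filter fun x => x ∈ B2 ∨ x ∈ ({v', h', w'} : Finset V) := by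
              intro y hy
              rw [mem_filter] at hy ⊢
              obtain ⟨-, h5, h6, h7⟩ := hy
              rcases h5 with h5 | h5
              · rcases h6 with h6 | h6
                · exact absurd ⟨h5, h6⟩ h7
                · exact absurd h6 (hTB y h5)
              · exact ⟨h5, h6⟩
            have h8 := k2.trans (card_le_card hsub)
            rw [← hc.card3] at h8
            have h9 := eq_of_subset_of_card_le (filter_subset _ _) h8
            intro t ht
            rw [← h9, mem_filter] at ht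
            exact ht.2
          have l3 : ({v, h, w} : Finset V) ⊆ {v', h', w'} := by
            intro t ht
            rcases l1 t ht with h5 | h5
            · rcases l2 t ht with h6 | h6
              · exact absurd h6 (h2.pq _ h5)
              · exact h6
            · exact h5
          have l4 := eq_of_subset_of_card_le l3 (by rw [hc.card3, hc2.card3])
          exact h1.tp v' (by rw [l4]; exact hv'2) hv'A
        · push Not at hb2
          have := small_of_subset h3 h1 hc.card3.le h2.symm
            (fun y hy => (hBcov y hy).resolve_right (hb2 y hy)) hv'A hv'2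
          omega
      · push Not at hb1
        have := small_of_subset h3 h1 hc.card3.le h2
          (fun y hy => (hBcov y hy).resolve_left (hb1 y hy)) hv'A hv'2
        omega

end Pool.Agent.Xu.X2.H41
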