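import Pool.Agent.Lib.MP_144d21_co.X2.IfaceC
import Pool.Agent.Lib.MP_144d21_co.X2.H25.Conn

/-!
# MP_144d21_co, X2, part CHEX (helper41): the structure lemma in the language of Defs.lean
-/

set_option autoImplicit false

namespace Pool.Agent.Xu.X2.H41

open Finset Pool.Agent.Xu Pool.Agent.Xu.X2

variable {V : Type} [Fintype V] [DecidableEq V]

/-- the three pairs of `cT` -/
theorem cT_adj0 {h : V} {b : ℕ → V} {m : ℕ} (I : Finset (Fin 3)) (hI : 2 ∈ I) (hne : h ≠ b 0) :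
    (tE (cT h b m) I).Adj h (b 0) :=
  ⟨hne, 2, hI, Or.inl ⟨rfl, rfl⟩⟩

theorem cT_adjm {h : V} {b : ℕ → V} {m : ℕ} (I : Finset (Fin 3)) (hI : 1 ∈ I) (hne : h ≠ b m) :
    (tE (cT h b m) I).Adj h (b m) :=
  ⟨hne, 1, hI, Or.inr ⟨rfl, rfl⟩⟩

theorem chex : ChexS := by
  intro V _ _ G S h3 hex hfr hhub
  have hC : C3 G S := (H25.threeConn_iff.1 h3).2
  have h1 := structure_lemma hC ?_ ?_ ?_
  · obtain ⟨h, m, b, hch, hm, hc3⟩ := h1
    refine ⟨h, m, b, hch, hm, H25.C3.mono hc3 ?_⟩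
    rintro u hu v hv ((hadj | ⟨hne, ⟨rfl, rfl⟩ | ⟨rfl, rfl⟩⟩) | ⟨hne, ⟨rfl, rfl⟩ | ⟨rfl, rfl⟩⟩)
    · exact Or.inl hadj
    · exact Or.inr (cT_adj0 _ (by decide) hne)
    · exact Or.inr (cT_adj0 _ (by decide) hne.symm).symm
    · exact Or.inr (cT_adjm _ (by decide) hne)
    · exact Or.inr (cT_adjm _ (by decide) hne.symm).symm
  · obtain ⟨T, P, Q, h⟩ := hex
    obtain ⟨h4, h5⟩ := H25.cut3_iff.1 h
    exact ⟨T, P, Q, h5, h4⟩
  · intro T P Q hs hT
    exact hfr T P Q (H25.cut3_iff.2 ⟨hT, hs⟩)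
  · intro v hv hdeg
    obtain ⟨h, hadj, w, P, Q, hcut⟩ := hhub v hv hdeg
    obtain ⟨hT, hs⟩ := H25.cut3_iff.1 hcut
    have hvh : v ≠ h := hadj.ne
    have hvw : v ≠ w := by
      rintro rfl
      have : ({v, h, v} : Finset V).card ≤ 2 := by
        rw [show ({v, h, v} : Finset V) = {v, h} by ext; simp; tauto]
        exact card_le_two
      omega
    have hhw : h ≠ w := by
      rintro rfl
      have : ({v, h, h} : Finset V).card ≤ 2 := by
        rw [show ({v, h, h} : Finset V) = {v, h} by ext; simp]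
        exact card_le_two
      omega
    obtain ⟨x, hx, hvx⟩ := hC.touch hs hT.le (t := v) (by simp)
    obtain ⟨z, hz, hvz⟩ := hC.touch hs.symm hT.le (t := v) (by simp)
    have hhS : h ∈ S := (hs.un h).2 (Or.inl (by simp))
    have hxS : x ∈ S := (hs.un x).2 (Or.inr (Or.inl hx))
    have hzS : z ∈ S := (hs.un z).2 (Or.inr (Or.inr hz))
    have hhx : h ≠ x := by rintro rfl; exact hs.tp h (by simp) hx
    have hhz : h ≠ z := by rintro rfl; exact hs.tq h (by simp) hz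
    have hxz : x ≠ z := by rintro rfl; exact hs.pq x hx hz
    refine ⟨h, w, x, z, P, Q, hs, hvh, hvw, hhw, ?_, hx, hz⟩
    symm
    apply eq_of_subset_of_card_le
    · intro y hy
      simp only [mem_insert, mem_singleton] at hy
      rw [mem_nb]
      rcases hy with rfl | rfl | rfl
      · exact ⟨hhS, hadj⟩
      · exact ⟨hxS, hvx⟩
      · exact ⟨hzS, hvz⟩
    · rw [hdeg, card_eq_three.2 ⟨h, x, z, hhx, hhz, hxz, rfl⟩]

end Pool.Agent.Xu.X2.H41
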