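import Pool.Agent.Lib.MP_144d21_co.X2.H41.Chex
import Pool.Agent.Lib.MP_144d21_co.XU.Iface

/-!
# MP_144d21_co, X2, part CASEC (helper41): all vertices of degree 3 have hubs
-/

set_option autoImplicit false
set_option linter.unusedSectionVars false

namespace Pool.Agent.Xu.X2.H41

open Finset Pool.Agent.Xu Pool.Agent.Xu.X2

variable {V : Type} [Fintype V] [DecidableEq V]

theorem tS_cT (h : V) (b : ℕ → V) (m : ℕ) : tS (cT h b m) = {h, b 0, b m} := by
  unfold tS cT
  ext x
  simp only [mem_image, mem_univ, true_and, mem_insert, mem_singleton, Fin.exists_fin_succ]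
  simp
  tauto

/-- the data of a chain -/
theorem chain_cut {G : SimpleGraph V} {S : Finset V} {h : V} {m : ℕ} {b : ℕ → V}
    (hc : Chain G S h m b) :
    Function.Injective (cT h b m) ∧ tS (cT h b m) ⊆ S \ inner b m ∧
    (inner b m).card = m - 1 ∧ inner b m ⊆ S ∧
    (∀ x ∈ inner b m, ∀ y ∈ S \ inner b m, G.Adj x y → y ∈ tS (cT h b m)) := by
  have h2 := hc.m2
  have hb0 : b 0 ≠ h := hc.bh 0 (by omega)
  have hbm : b m ≠ h := hc.bh m le_rfl
  have hbb : b 0 ≠ b m := fun e => by
    have := hc.inj 0 (by omega) m le_rfl e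
    omega
  refine ⟨?_, ?_, ?_, ?_, ?_⟩
  · intro i j hij
    fin_cases i <;> fin_cases j <;> simp [cT] at hij ⊢
    · exact hb0 hij.symm
    · exact hbm hij.symm
    · exact hb0 hij
    · exact hbb hij
    · exact hbm hij
    · exact hbb hij.symm
  · rw [tS_cT]
    intro x hx
    simp only [mem_insert, mem_singleton] at hx
    rw [mem_sdiff, mem_inner]
    rcases hx with rfl | rfl | rfl
    · exact ⟨hc.hS, fun ⟨i, hi, hi', e⟩ => hc.bh i hi'.le e⟩
    · exact ⟨hc.bS 0 (by omega), fun ⟨i, hi, hi', e⟩ => by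
        have := hc.inj i hi'.le 0 (by omega) e
        omega⟩
    · exact ⟨hc.bS m le_rfl, fun ⟨i, hi, hi', e⟩ => by
        have := hc.inj i hi'.le m le_rfl e
        omega⟩
  · unfold inner
    rw [card_image_of_injOn, Nat.card_Ioo]
    · omega
    · intro i hi j hj hij
      have hi' := mem_Ioo.1 (mem_coe.1 hi)
      have hj' := mem_Ioo.1 (mem_coe.1 hj)
      exact hc.inj i (by omega) j (by omega) hij
  · intro x hx
    obtain ⟨i, hi, hi', rfl⟩ := mem_inner.1 hx
    exact hc.bS i hi'.le
  · intro x hx y hy hadj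
    obtain ⟨i, hi, hi', rfl⟩ := mem_inner.1 hx
    rw [mem_sdiff, mem_inner] at hy
    have hynb : y ∈ nb G S (b i) := mem_nb.2 ⟨hy.1, hadj⟩
    rw [hc.nbb i hi hi', mem_insert, mem_insert, mem_singleton] at hynb
    rw [tS_cT, mem_insert, mem_insert, mem_singleton]
    rcases hynb with rfl | rfl | rfl
    · by_cases h0 : i - 1 = 0
      · right; left; rw [h0]
      · exact absurd ⟨i - 1, by omega, by omega, rfl⟩ hy.2
    · by_cases h0 : i + 1 = m
      · right; right; rw [h0]
      · exact absurd ⟨i + 1, by omega, by omega, rfl⟩ hy.2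
    · left; rfl

theorem Conn.mono {G G' : SimpleGraph V} {S : Finset V} (h : Conn G S) (hG : G ≤ G') :
    Conn G' S := by
  refine ⟨h.1, fun A hA hA0 hne => ?_⟩
  obtain ⟨a, ha, b, hb, hbA, hab⟩ := h.2 A hA hA0 hne
  exact ⟨a, ha, b, hb, hbA, hG hab⟩

theorem Conn.exists_adj {G : SimpleGraph V} {S : Finset V} (h : Conn G S) (h2 : 2 ≤ S.card) :
    ∃ x ∈ S, ∃ y ∈ S, G.Adj x y := by
  obtain ⟨x, hx⟩ := h.1
  obtain ⟨a, ha, b, hb, -, hab⟩ := h.2 {x} (singleton_subset_iff.2 hx) ⟨x, mem_singleton_self x⟩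
    (by rintro e; rw [← e] at h2; simp at h2)
  exact ⟨a, by rw [mem_singleton] at ha; exact ha ▸ hx, b, hb, hab⟩

theorem tE_le_cl (t : Fin 3 → V) (I : Finset (Fin 3)) : tE t I ≤ cl (tS t) := by
  intro a b
  rintro ⟨hne, i, -, ⟨rfl, rfl⟩ | ⟨rfl, rfl⟩⟩
  · exact ⟨hne, mem_image_of_mem _ (mem_univ _), mem_image_of_mem _ (mem_univ _)⟩
  · exact ⟨hne, mem_image_of_mem _ (mem_univ _), mem_image_of_mem _ (mem_univ _)⟩

theorem tE_empty (t : Fin 3 → V) : tE t ∅ = ⊥ := by
  ext a b
  constructor
  · rintro ⟨hne, i, hi, -⟩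
    exact absurd hi (notMem_empty i)
  · intro h; exact absurd h (by simp)

theorem dfc_of_inj {W : Submodule ℝ (Fin 3 → ℝ)} {I : Finset (Fin 3)} (h : Inj W I) :
    dfc W I = 0 := by
  unfold dfc
  have : (W ⊓ (⨅ i ∈ I, LinearMap.ker (LinearMap.proj i : (Fin 3 → ℝ) →ₗ[ℝ] ℝ)) :
    Submodule ℝ (Fin 3 → ℝ)) = ⊥ := by
    rw [eq_bot_iff]
    intro ν hν
    rw [Submodule.mem_inf] at hν
    rw [Submodule.mem_bot]
    apply h ν hν.1
    intro i hi
    have h1 := hν.2
    simp only [Submodule.mem_iInf] at h1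
    exact h1 i hi
  rw [this]
  exact finrank_bot ℝ _

theorem cc_nonneg (t : ℕ) : 0 ≤ cc t := by unfold cc; positivity

theorem cc_le_one (t : ℕ) : cc t ≤ 1 := by
  unfold cc
  exact pow_le_one₀ (by norm_num) (by norm_num)

theorem casec (hees : EesS) (hkn : KnS) (hwrk : WrkS) (hkey : KeyS) (hside : SideS)
    (hbnn : BnnS) (hdeg : DeggeS) (hchf : ChfS) (hrkch : RkchS) (hfamc : FamcS) (hnumc : NumcS)
    (halgc : AlgcS) (htri : Tri1S) : CasecS := by
  intro V _ _ p hgen G S h3 h5 ih hex hfr hhub t hfam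
  obtain ⟨h, m, b, hc, hm, hC⟩ := chex V G S h3 hex hfr hhub
  obtain ⟨hinj, hTR, hcard, hinS, hnbr⟩ := chain_cut hc
  set R := S \ inner b m with hR
  set T := tS (cT h b m) with hT
  set c := cT h b m with hcT
  have hgp := hgen.1
  have hT3 : T.card = 3 := by
    rw [hT]; unfold tS
    rw [card_image_of_injective _ hinj]; simp
  have hRS : R.card + (m - 1) = S.card := by
    rw [hR, ← hcard, card_sdiff_add_card_eq_card hinS]
  have hR3 : 3 ≤ R.card := hC.1
  have hR2 : 2 ≤ R.card := by omega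
  -- ranks
  obtain ⟨hw1, hw2, hw3⟩ := hwrk V p hgp G R c hinj hTR
  have hw1' : ∀ I, rk p (G ⊔ tE c I) R + dfc (WW p G R c) I = rk p (G ⊔ cl T) R := hw1
  have hk1 : rk p G S = rk p G R + (2 * m - 1) := (hrkch V p hgp G S h m b hc).1
  set W := WW p G R c with hW
  set w := dfc W ∅ with hw
  have hrG : rk p G R + w = rk p (G ⊔ cl T) R := by
    have := hw1' ∅
    rwa [tE_empty, sup_bot_eq] at this
  have hkT := (hkn V p hgp (G ⊔ cl T) R hR3).1
  set a := 3 * R.card - 6 - rk p (G ⊔ cl T) R with ha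
  have hdS : dd p G S = a + w + m - 2 := by
    unfold dd
    rw [hk1]
    omega
  have hdI : ∀ I, dd p (G ⊔ tE c I) R = a + dfc W I := by
    intro I
    unfold dd
    have h1 := hw1' I
    omega
  have hFF : FF p G S = 2 ^ (R.card - 3) * (2 ^ (m - 1) * EE (a + w + m - 2)) := by
    unfold FF
    rw [hdS, ← mul_assoc, ← pow_add]
    congr 2
    omega
  obtain ⟨tU, tD, htt, hmU, hF1, hF2⟩ := hfamc V p hgen G S h m b t hc hm hfam
  obtain ⟨hn1, hn2, hn3, hn4⟩ := hnumc a m tU tD hm hmU
  rw [htt] at hn1 hn2 hn3 hn4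
  have hE0 : EE 0 = 1 := hees.1
  have hEpos : ∀ d, 0 < EE d := hees.2.1
  have hEanti : ∀ d e, d ≤ e → EE e ≤ EE d := hees.2.2.1
  rw [hFF]
  have hc0 := cc_nonneg t
  have hp2 : (0 : ℝ) < 2 ^ (R.card - 3) := by positivity
  by_cases hR4 : 4 ≤ R.card
  · -- a proper rest
    have hcut : Cut3 G S T (R \ T) (inner b m) := by
      refine ⟨hT3, ?_, disjoint_sdiff, ?_, ?_, ?_, ?_, ?_⟩
      · rw [union_sdiff_of_subset hTR, hR, sdiff_union_of_subset hinS]
      · exact disjoint_left.2 fun x hx hx' => (mem_sdiff.1 (hTR hx)).2 hx'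
      · exact disjoint_left.2 fun x hx hx' => (mem_sdiff.1 (mem_sdiff.1 hx).1).2 hx'
      · rw [sdiff_nonempty]
        intro hsub
        have := card_le_card hsub
        omega
      · rw [← card_pos]; omega
      · intro x hx y hy hadj
        exact (mem_sdiff.1 hx).2 (hnbr y hy x (mem_sdiff.1 hx).1 hadj.symm)
    have hun : T ∪ (R \ T) = R := union_sdiff_of_subset hTR
    have hconn : Conn G R := by
      have := (hside V G S T (R \ T) (inner b m) h3 hcut).1
      rwa [hun] at this
    have hA0 : ∀ I, 0 ≤ (bet (G ⊔ tE c I) R : ℝ) := by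
      intro I
      exact_mod_cast hbnn V (G ⊔ tE c I) R (Conn.mono hconn le_sup_left) hR2
    have hch := hchf V G S h m b hc (Conn.exists_adj hconn hR2)
    have hRlt : R.card < S.card := by omega
    have hlt : ∀ G' : SimpleGraph V, R.card < S.card ∨
        (R.card = S.card ∧ ne G' R < ne G S) := fun _ => Or.inl hRlt
    -- lower bounds
    have hU : ∀ I, Inj W I →
        2 ^ (R.card - 3) * (cc (tD + 1) * EE a) ≤ (bet (G ⊔ tE c I) R : ℝ) := by
      intro I hI
      have hcl := hw2 I hI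
      have h3c : ThreeConn (G ⊔ tE c I) R := by
        have := hkey V p hgp G (tE c I) S T (R \ T) (inner b m) h3 hcut (tE_le_cl c I)
          (by rw [hun]; exact hcl)
        rwa [hun] at this
      have hbd := ih (G ⊔ tE c I) R (hlt _) h3c (tD + 1) (hF1 I hcl)
      unfold FF at hbd
      rw [hdI I, dfc_of_inj hI, add_zero] at hbd
      linarith [hbd, mul_left_comm (cc (tD + 1)) ((2 : ℝ) ^ (R.card - 3)) (EE a)]
    have hU2 : dfc W {1, 2} = 1 →
        2 ^ (R.card - 3) * (cc (tD + 2) * EE (a + 1)) ≤ (bet (G ⊔ tE c {1, 2}) R : ℝ) := by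
      intro hd
      have h3c : ThreeConn (G ⊔ tE c {1, 2}) R := H25.threeConn_iff.2 ⟨hR4, hC⟩
      have hbd := ih (G ⊔ tE c {1, 2}) R (hlt _) h3c (tD + 2) hF2
      unfold FF at hbd
      rw [hdI, hd] at hbd
      linarith [hbd, mul_left_comm (cc (tD + 2)) ((2 : ℝ) ^ (R.card - 3)) (EE (a + 1))]
    have hUnn : 0 ≤ (2 : ℝ) ^ (R.card - 3) * (cc (tD + 1) * EE a) :=
      mul_nonneg hp2.le (mul_nonneg (cc_nonneg _) (hEpos a).le)
    have hbX : (bet G S : ℝ) = ((m : ℝ) - 1) * (bet (G ⊔ tE c {1, 2}) R : ℝ) +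
        (bet (G ⊔ tE c {0}) R : ℝ) := by
      have : (bet G S : ℝ) = ((((m : ℤ) - 1) * bet (G ⊔ tE c {1, 2}) R +
        bet (G ⊔ tE c {0}) R : ℤ) : ℝ) := by rw [hch]
      rw [this]; push_cast; ring
    have hscale : ∀ x y : ℝ, x ≤ y → 2 ^ (R.card - 3) * x ≤ 2 ^ (R.card - 3) * y :=
      fun x y hxy => mul_le_mul_of_nonneg_left hxy hp2.le
    have key : cc t * (2 ^ (R.card - 3) * (2 ^ (m - 1) * EE (a + w + m - 2))) =
        2 ^ (R.card - 3) * (cc t * (2 ^ (m - 1) * EE (a + w + m - 2))) := by ring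
    rw [key]
    have hm1 : (0 : ℝ) < 2 ^ (m - 1) := by positivity
    rcases halgc W _ _ _ m (fun I => (bet (G ⊔ tE c I) R : ℝ)) (by omega) hUnn hA0 hU hU2 hbX with
      ⟨h0, h1⟩ | ⟨h0, h1⟩ | ⟨h0, h1⟩
    · rw [← hw] at h0
      rw [h0, add_zero]
      have := hscale _ _ hn1
      linarith [this, mul_left_comm ((2 : ℝ) ^ (R.card - 3)) (m : ℝ) (cc (tD + 1) * EE a)]
    · rw [← hw] at h0
      rw [h0, show a + 1 + m - 2 = a + m - 1 by omega]
      rcases h1 with h1 | h1
      · have := hscale _ _ hn2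
        linarith [this, mul_left_comm ((2 : ℝ) ^ (R.card - 3)) ((m : ℝ) - 1)
          (cc (tD + 1) * EE a)]
      · have := hscale _ _ hn3
        linarith [this, mul_left_comm ((2 : ℝ) ^ (R.card - 3)) ((m : ℝ) - 1)
          (cc (tD + 2) * EE (a + 1)), mul_add ((2 : ℝ) ^ (R.card - 3)) (cc (tD + 1) * EE a)
          (((m : ℝ) - 1) * (cc (tD + 2) * EE (a + 1)))]
    · rw [← hw] at h0
      have e1 : cc t * (2 ^ (m - 1) * EE (a + w + m - 2)) ≤ cc t * (2 ^ (m - 1) * EE (a + m)) :=
        mul_le_mul_of_nonneg_left (mul_le_mul_of_nonneg_left (hEanti _ _ (by omega)) hm1.le) hc0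
      have e2 : cc t * (2 ^ (m - 1) * EE (a + m)) ≤ cc t * (2 ^ (m - 1) * EE (a + m - 1)) :=
        mul_le_mul_of_nonneg_left (mul_le_mul_of_nonneg_left (hEanti _ _ (by omega)) hm1.le) hc0
      rcases h1 with h1 | h1
      · have := hscale _ _ ((e1.trans e2).trans hn2)
        linarith [this, mul_left_comm ((2 : ℝ) ^ (R.card - 3)) ((m : ℝ) - 1)
          (cc (tD + 1) * EE a)]
      · have := hscale _ _ (e1.trans hn4)
        linarith [this, mul_left_comm ((2 : ℝ) ^ (R.card - 3)) ((m : ℝ) - 1)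
          (cc (tD + 2) * EE (a + 1))]
  · -- a wheel
    have hR3' : R.card = 3 := by omega
    have hTeq : T = R := eq_of_subset_of_card_le hTR (by omega)
    -- all pairs of T are adjacent
    have hb0S : b 0 ∈ S := hc.bS 0 (by omega)
    have hbmS : b m ∈ S := hc.bS m le_rfl
    have hadjT : ∀ x ∈ T, ∀ y ∈ T, x ≠ y → (G ⊔ tE c {1, 2}).Adj x y := by
      intro x hx y hy hxy
      by_contra hna
      have hsep : Sepn (G ⊔ tE c {1, 2}) R ((R.erase x).erase y) {x} {y} := by
        refine ⟨fun z => ?_, fun z hz hz' => ?_, fun z hz hz' => ?_, fun z hz hz' => ?_,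
          ⟨x, mem_singleton_self x⟩, ⟨y, mem_singleton_self y⟩, fun u hu v hv huv => ?_⟩
        · rw [mem_erase, mem_erase, mem_singleton, mem_singleton]
          constructor
          · intro hz; tauto
          · rintro (hz | rfl | rfl)
            · exact hz.2.2
            · exact hTR hx
            · exact hTR hy
        · rw [mem_singleton] at hz'; subst hz'
          exact (mem_erase.1 (mem_erase.1 hz).2).1 rfl
        · rw [mem_singleton] at hz'; subst hz'
          exact (mem_erase.1 hz).1 rfl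
        · rw [mem_singleton] at hz hz'
          exact hxy (hz.symm.trans hz')
        · rw [mem_singleton] at hu hv
          subst hu; subst hv
          exact hna huv
      have := hC.2 _ _ _ hsep
      rw [card_erase_of_mem (mem_erase.2 ⟨hxy.symm, hTR hy⟩), card_erase_of_mem (hTR hx)] at this
      omega
    have hb0m : b 0 ≠ b m := fun e => by
      have := hc.inj 0 (by omega) m le_rfl e
      omega
    have hb0h : b 0 ≠ h := hc.bh 0 (by omega)
    have hbmh : b m ≠ h := hc.bh m le_rfl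
    have hTm : ∀ x, x ∈ T ↔ x = h ∨ x = b 0 ∨ x = b m := by
      intro x; rw [hT, hcT, tS_cT]; simp
    -- neighbours of the end vertices
    have hnb1 : ∀ x ∈ T, x ≠ h → ∀ y ∈ T, x ≠ y → G.Adj x y := by
      intro x hx hxh
      have hxS : x ∈ S := (mem_sdiff.1 (hTR hx)).1
      have h1 := hdeg V G S x h3 hxS
      -- at most one inner neighbour
      have h2 : ((nb G S x) ∩ inner b m).card ≤ 1 := by
        rw [card_le_one]
        intro u hu v hv
        rw [mem_inter, mem_nb, mem_inner] at hu hv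
        obtain ⟨⟨-, hxu⟩, i, hi, hi', rfl⟩ := hu
        obtain ⟨⟨-, hxv⟩, j, hj, hj', rfl⟩ := hv
        have e1 : x ∈ nb G S (b i) := mem_nb.2 ⟨hxS, hxu.symm⟩
        have e2 : x ∈ nb G S (b j) := mem_nb.2 ⟨hxS, hxv.symm⟩
        rw [hc.nbb i hi hi', mem_insert, mem_insert, mem_singleton] at e1
        rw [hc.nbb j hj hj', mem_insert, mem_insert, mem_singleton] at e2
        have hx2 : x = b 0 ∨ x = b m := ((hTm x).1 hx).resolve_left hxh
        rcases hx2 with rfl | rfl
        · have f1 : i = 1 := by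
            rcases e1 with e | e | e
            · have := hc.inj 0 (by omega) (i - 1) (by omega) e; omega
            · have := hc.inj 0 (by omega) (i + 1) (by omega) e; omega
            · exact absurd e hxh
          have f2 : j = 1 := by
            rcases e2 with e | e | e
            · have := hc.inj 0 (by omega) (j - 1) (by omega) e; omega
            · have := hc.inj 0 (by omega) (j + 1) (by omega) e; omega
            · exact absurd e hxh
          rw [f1, f2]
        · have f1 : i = m - 1 := by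
            rcases e1 with e | e | e
            · have := hc.inj m (by omega) (i - 1) (by omega) e; omega
            · have := hc.inj m (by omega) (i + 1) (by omega) e; omega
            · exact absurd e hxh
          have f2 : j = m - 1 := by
            rcases e2 with e | e | e
            · have := hc.inj m (by omega) (j - 1) (by omega) e; omega
            · have := hc.inj m (by omega) (j + 1) (by omega) e; omega
            · exact absurd e hxh
          rw [f1, f2]
      intro y hy hxy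
      by_contra hna
      have h3' : nb G S x ⊆ ((nb G S x) ∩ inner b m) ∪ ((T.erase x).erase y) := by
        intro z hz
        rw [mem_union, mem_inter]
        by_cases hzi : z ∈ inner b m
        · exact Or.inl ⟨hz, hzi⟩
        · right
          rw [mem_nb] at hz
          have hzR : z ∈ R := mem_sdiff.2 ⟨hz.1, hzi⟩
          rw [← hTeq] at hzR
          rw [mem_erase, mem_erase]
          exact ⟨fun e => hna (e ▸ hz.2), hz.2.ne.symm, hzR⟩
      have h4 := (card_le_card h3').trans (card_union_le _ _)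
      rw [card_erase_of_mem (mem_erase.2 ⟨hxy.symm, hy⟩), card_erase_of_mem hx] at h4
      omega
    have hadjG : ∀ x ∈ T, ∀ y ∈ T, x ≠ y → G.Adj x y := by
      intro x hx y hy hxy
      by_cases hxh : x = h
      · have hyh : y ≠ h := fun e => hxy (hxh.trans e.symm)
        exact (hnb1 y hy hyh x hx hxy.symm).symm
      · exact hnb1 x hx hxh y hy hxy
    have hmemc : ∀ i, c i ∈ T := fun i => mem_image_of_mem _ (mem_univ _)
    have hw0 : w = 0 := by
      apply dfc_of_inj
      intro ν hν _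
      ext i
      refine hw3 ν hν i (hadjG _ (hmemc _) _ (hmemc _) ?_)
      intro e
      have := hinj e
      fin_cases i <;> simp at this
    have ha0 : a = 0 := by
      have e1 := (hkn V p hgp (cl R) R hR3).2
      have e2 : rk p (cl R) R ≤ rk p (G ⊔ cl T) R :=
        rk_mono subset_rfl fun u hu v hv huv => Or.inr (by rw [hTeq]; exact huv)
      omega
    have hb1 : ∀ I, bet (G ⊔ tE c I) R = 1 := by
      intro I
      refine htri V _ R hR3' fun x hx y hy hxy => Or.inl ?_
      rw [← hTeq] at hx hy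
      exact hadjG x hx y hy hxy
    have hex2 : ∃ x ∈ R, ∃ y ∈ R, G.Adj x y := by
      refine ⟨h, hTR ((hTm h).2 (Or.inl rfl)), b 0, hTR ((hTm _).2 (Or.inr (Or.inl rfl))), ?_⟩
      exact hadjG _ ((hTm h).2 (Or.inl rfl)) _ ((hTm _).2 (Or.inr (Or.inl rfl))) hb0h.symm
    have hch := hchf V G S h m b hc hex2
    rw [hb1, hb1, mul_one] at hch
    have hbX : (bet G S : ℝ) = m := by
      rw [hch]; push_cast; ring
    rw [hbX, hR3', hw0, add_zero]
    rw [ha0, zero_add] at hn1 ⊢
    rw [hE0, mul_one] at hn1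
    have e3 : (m : ℝ) * cc (tD + 1) ≤ m := by
      have := cc_le_one (tD + 1)
      have hm0 : (0 : ℝ) ≤ m := by positivity
      nlinarith
    simp only [Nat.sub_self, pow_zero, one_mul]
    linarith

end Pool.Agent.Xu.X2.H41
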